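import Pool.Agent.Q35.EOW.Stm2

/-!
Project EOW, job CP1: the completions of a number field are proper metric spaces.
-/

set_option autoImplicit false

namespace Pool.Agent.Q47.EOW

open NumberField IsDedekindDomain HeightOneSpectrum
open Pool.Agent.Q35.EOW (S_CP1)
open scoped Valued WithZero

theorem proper_inf (K : Type) [Field K] (w : InfinitePlace K) : ProperSpace w.Completion := by
  have hi := InfinitePlace.Completion.isometry_extensionEmbedding w
  refine ⟨fun x r => ?_⟩
  have := hi.isClosedEmbedding.isCompact_preimage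
    (isCompact_closedBall (InfinitePlace.Completion.extensionEmbedding w x) r)
  rwa [hi.preimage_closedBall] at this

variable {K : Type} [Field K] [NumberField K] (v : HeightOneSpectrum (𝓞 K))

/-- An integer of the completion is congruent to an integer of `K`. -/
theorem exists_int (x : v.adicCompletion K) (hx : Valued.v x ≤ 1) :
    ∃ a : 𝓞 K, Valued.v (((algebraMap (𝓞 K) K a : K) : v.adicCompletion K) - x) < 1 := by
  obtain ⟨k, hk⟩ := (denseRange_algebraMap K v).exists_dist_lt x one_pos
  rw [dist_comm, dist_eq_norm, Valued.toNormedField.norm_lt_one_iff,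
    algebraMap_adicCompletion] at hk
  change Valued.v ((k : v.adicCompletion K) - x) < 1 at hk
  have hk1 : Valued.v (k : v.adicCompletion K) ≤ 1 := by
    have := Valued.v.map_add ((k : v.adicCompletion K) - x) x
    rw [sub_add_cancel] at this
    exact this.trans (max_le hk.le hx)
  have hk2 : v.valuation K k ≤ 1 := by
    rw [← valuedAdicCompletion_eq_valuation']
    exact hk1
  obtain ⟨a, ha⟩ := exists_valuation_sub_lt_of_integer v hk2 1
  refine ⟨a, ?_⟩
  have h3 : Valued.v ((algebraMap (𝓞 K) K a - k : K) : v.adicCompletion K) < 1 := by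
    rw [valuedAdicCompletion_eq_valuation']
    exact ha
  have h4 : ((algebraMap (𝓞 K) K a : K) : v.adicCompletion K) - x =
    ((algebraMap (𝓞 K) K a - k : K) : v.adicCompletion K) + ((k : v.adicCompletion K) - x) := by
    have : ((algebraMap (𝓞 K) K a - k : K) : v.adicCompletion K) =
        ((algebraMap (𝓞 K) K a : K) : v.adicCompletion K) - (k : v.adicCompletion K) :=
      map_sub (algebraMap K (v.adicCompletion K)) _ _
    rw [this]; ring
  rw [h4]
  exact (Valued.v.map_add _ _).trans_lt (max_lt h3 hk)

theorem mem_max (z : 𝒪[v.adicCompletion K]) (h : Valued.v (z : v.adicCompletion K) < 1) :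
    z ∈ IsLocalRing.maximalIdeal 𝒪[v.adicCompletion K] := by
  rw [IsLocalRing.mem_maximalIdeal, mem_nonunits_iff]
  exact Valuation.Integer.not_isUnit_iff_valuation_lt_one.2 h

/-- The residue field is finite. -/
theorem finite_residue : Finite 𝓀[v.adicCompletion K] := by
  let φ : 𝓞 K →+* 𝒪[v.adicCompletion K] := (algebraMap (𝓞 K) (v.adicCompletionIntegers K))
  let ψ : 𝓞 K →+* 𝓀[v.adicCompletion K] := (IsLocalRing.residue _).comp φ
  have hφ : ∀ a, ((φ a : 𝒪[v.adicCompletion K]) : v.adicCompletion K) =
      ((algebraMap (𝓞 K) K a : K) : v.adicCompletion K) := fun a => rfl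
  have hs : Function.Surjective ψ := by
    intro y
    obtain ⟨x, rfl⟩ := IsLocalRing.residue_surjective y
    obtain ⟨a, ha⟩ := exists_int v x x.2
    refine ⟨a, ?_⟩
    change IsLocalRing.residue _ (φ a) = IsLocalRing.residue _ x
    rw [← sub_eq_zero, ← map_sub, IsLocalRing.residue_eq_zero_iff]
    refine mem_max v _ ?_
    exact ha
  have hk : v.asIdeal ≤ RingHom.ker ψ := by
    intro a ha
    rw [RingHom.mem_ker]
    change IsLocalRing.residue _ (φ a) = 0
    rw [IsLocalRing.residue_eq_zero_iff]
    refine mem_max v _ ?_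
    rw [hφ, valuedAdicCompletion_eq_valuation']
    exact (v.valuation_lt_one_iff_mem a).2 ha
  have : Finite (𝓞 K ⧸ v.asIdeal) := v.asIdeal.finiteQuotientOfFreeOfNeBot v.ne_bot
  exact Finite.of_surjective (Ideal.Quotient.lift v.asIdeal ψ fun a ha => hk ha)
    (Ideal.Quotient.lift_surjective_of_surjective _ _ hs)

theorem proper_fin : ProperSpace (v.adicCompletion K) := by
  rw [Valued.integer.properSpace_iff_completeSpace_and_isDiscreteValuationRing_integer_and_finite_residueField]
  exact ⟨inferInstance, inferInstanceAs (IsDiscreteValuationRing (v.adicCompletionIntegers K)),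
    finite_residue v⟩

theorem cp1 : S_CP1 := fun K _ _ => ⟨fun w => proper_inf K w, fun v => proper_fin v⟩

end Pool.Agent.Q47.EOW
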