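import Pool.Agent.Q35.EOW.Stm2

/-!
Project EOW, job CP2: continuous positive functions on `X(L)` are bounded and uniformly continuous.
-/

set_option autoImplicit false

namespace Pool.Agent.Q47.EOW

open Finset Function
open Pool.Agent.Q35.SM (Cof Vs ev)
open Pool.Agent.Q35.EOW (Cone ContF S_CP2)

variable {K : Type} [Field K] {ι : Type} [Fintype ι] [DecidableEq ι] {n : ι → ℕ} {k : ℕ}
  {c : Fin k → Cof K n} {L : Type}

theorem ev_smul [Field L] [Algebra K L] (c : Cof K n) (a : ι → L) (x : Vs L n) :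
    ev L c (fun i => a i • x i) = (∏ i, a i) * ev L c x := by
  unfold ev
  rw [Finset.mul_sum]
  refine Finset.sum_congr rfl fun b _ => ?_
  simp only [Pi.smul_apply, smul_eq_mul, Finset.prod_mul_distrib]
  ring

theorem cone_smul [Field L] [Algebra K L] {a : ι → L} (ha : ∀ i, a i ≠ 0) {x : Vs L n}
    (hx : Cone c L x) : Cone c L (fun i => a i • x i) :=
  ⟨fun i => smul_ne_zero (ha i) (hx.1 i), fun t => by rw [ev_smul, hx.2 t, mul_zero]⟩

/-- The scaling factor. -/
theorem exists_scale [NormedField L] {m : ℕ} (x : Fin (m + 1) → L) (hx : x ≠ 0) :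
    ∃ a : L, a ≠ 0 ∧ ‖a‖ * ‖x‖ = 1 := by
  obtain ⟨j, -, hj⟩ := Finset.exists_max_image (Finset.univ : Finset (Fin (m + 1)))
    (fun j => ‖x j‖) Finset.univ_nonempty
  have h : ‖x‖ = ‖x j‖ := le_antisymm
    ((pi_norm_le_iff_of_nonneg (norm_nonneg _)).2 fun i => hj i (Finset.mem_univ _))
    (norm_le_pi_norm x j)
  have h0 : x j ≠ 0 := by
    intro h0
    rw [h0, norm_zero] at h
    exact hx (norm_eq_zero.1 h)
  refine ⟨(x j)⁻¹, inv_ne_zero h0, ?_⟩
  rw [h, norm_inv, inv_mul_cancel₀ (norm_ne_zero_iff.2 h0)]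

/-- The compact part of the cone. -/
def T (c : Fin k → Cof K n) (L : Type) [NormedField L] [Algebra K L] : Set (Vs L n) :=
  {x | (∀ i, 1 / 2 ≤ ‖x i‖ ∧ ‖x i‖ ≤ 2) ∧ ∀ t, ev L (c t) x = 0}

theorem T_sub [NormedField L] [Algebra K L] : T c L ⊆ {x | Cone c L x} := by
  rintro x ⟨h1, h2⟩
  refine ⟨fun i h => ?_, h2⟩
  have := (h1 i).1
  rw [h, norm_zero] at this
  norm_num at this

theorem continuous_ev [NormedField L] [Algebra K L] (c : Cof K n) :
    Continuous (fun x : Vs L n => ev L c x) := by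
  unfold ev
  fun_prop

theorem T_compact [NormedField L] [Algebra K L] [ProperSpace L] : IsCompact (T c L) := by
  refine Metric.isCompact_of_isClosed_isBounded ?_ ?_
  · have : T c L = (⋂ i, {x : Vs L n | 1 / 2 ≤ ‖x i‖}) ∩ (⋂ i, {x : Vs L n | ‖x i‖ ≤ 2}) ∩
        ⋂ t, {x : Vs L n | ev L (c t) x = 0} := by
      ext x
      simp only [T, Set.mem_setOf_eq, Set.mem_inter_iff, Set.mem_iInter]
      constructor
      · rintro ⟨h1, h2⟩
        exact ⟨⟨fun i => (h1 i).1, fun i => (h1 i).2⟩, h2⟩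
      · rintro ⟨⟨h1, h2⟩, h3⟩
        exact ⟨fun i => ⟨h1 i, h2 i⟩, h3⟩
    rw [this]
    refine ((isClosed_iInter fun i => isClosed_le continuous_const (by fun_prop)).inter
      (isClosed_iInter fun i => isClosed_le (by fun_prop) continuous_const)).inter
      (isClosed_iInter fun t => isClosed_eq (continuous_ev _) continuous_const)
  · refine (Metric.isBounded_closedBall (x := (0 : Vs L n)) (r := 2)).subset ?_
    rintro x ⟨h1, -⟩
    rw [mem_closedBall_zero_iff]
    exact (pi_norm_le_iff_of_nonneg (by norm_num)).2 fun i => (h1 i).2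

theorem cp2 : S_CP2 := by
  intro K _ ι _ _ n k c L _ _ _ ψ hψ
  have hc : ContinuousOn ψ (T c L) := hψ.cont.mono T_sub
  -- scaling
  have hs : ∀ x, Cone c L x → ∃ a : ι → L, (∀ i, a i ≠ 0) ∧ ∀ i, ‖a i‖ * ‖x i‖ = 1 := by
    intro x hx
    have := fun i => exists_scale (x i) (hx.1 i)
    choose a ha using this
    exact ⟨a, fun i => (ha i).1, fun i => (ha i).2⟩
  have hT : ∀ x, Cone c L x → ∀ a : ι → L, (∀ i, a i ≠ 0) → (∀ i, ‖a i‖ * ‖x i‖ = 1) →
      (fun i => a i • x i) ∈ T c L := by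
    intro x hx a ha h1
    refine ⟨fun i => ?_, (cone_smul ha hx).2⟩
    have : ‖a i • x i‖ = 1 := by rw [norm_smul, h1]
    rw [this]
    norm_num
  refine ⟨?_, ?_⟩
  · by_cases hne : (T c L).Nonempty
    · obtain ⟨p, hp, hmin⟩ := T_compact.exists_isMinOn hne hc
      obtain ⟨q, hq, hmax⟩ := T_compact.exists_isMaxOn hne hc
      refine ⟨ψ p, ψ q, hψ.pos p (T_sub hp), fun x hx => ?_⟩
      obtain ⟨a, ha, h1⟩ := hs x hx
      have hm := hT x hx a ha h1
      rw [← hψ.smul a ha x hx]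
      exact ⟨hmin hm, hmax hm⟩
    · refine ⟨1, 1, one_pos, fun x hx => ?_⟩
      obtain ⟨a, ha, h1⟩ := hs x hx
      exact absurd ⟨_, hT x hx a ha h1⟩ hne
  · intro ε hε
    have hu := T_compact.uniformContinuousOn_of_continuous hc
    rw [Metric.uniformContinuousOn_iff_le] at hu
    obtain ⟨δ, hδ, hu⟩ := hu ε hε
    refine ⟨min δ (1 / 2), lt_min hδ (by norm_num), fun x y hx hy hxy => ?_⟩
    obtain ⟨a, ha, h1⟩ := hs x hx
    have hd : ∀ i, ‖a i • x i - a i • y i‖ ≤ min δ (1 / 2) := by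
      intro i
      rw [← smul_sub, norm_smul]
      calc ‖a i‖ * ‖x i - y i‖ ≤ ‖a i‖ * (min δ (1 / 2) * ‖x i‖) :=
            mul_le_mul_of_nonneg_left (hxy i) (norm_nonneg _)
        _ = min δ (1 / 2) * (‖a i‖ * ‖x i‖) := by ring
        _ = min δ (1 / 2) := by rw [h1, mul_one]
    have hmx := hT x hx a ha h1
    have hmy : (fun i => a i • y i) ∈ T c L := by
      refine ⟨fun i => ?_, (cone_smul ha hy).2⟩
      have hx1 : ‖a i • x i‖ = 1 := by rw [norm_smul, h1]
      have h2 := (hd i).trans (min_le_right _ _)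
      have h3 := norm_sub_norm_le (a i • x i) (a i • y i)
      have h4 := norm_sub_norm_le (a i • y i) (a i • x i)
      rw [norm_sub_rev] at h4
      constructor <;> linarith
    have := hu _ hmx _ hmy (by
      rw [dist_eq_norm]
      refine (pi_norm_le_iff_of_nonneg hδ.le).2 fun i => ?_
      exact (hd i).trans (min_le_left _ _))
    rw [Real.dist_eq, hψ.smul a ha x hx, hψ.smul a ha y hy] at this
    exact this

end Pool.Agent.Q47.EOW
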